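import Pool.Agent.W189.NF.LSer
import Pool.Agent.Y698.Lf
import Pool.Agent.H341R2.NF.ECCount

/-!
# Good places: finiteness of the complement, and the bound of Hasse
-/

set_option autoImplicit false

namespace Pool.Agent.T9h30.RS

open NumberField IsDedekindDomain WeierstrassCurve Pool.Agent.W189.NF
open Pool.Agent.H921R2.TatePole (nm two_le_nm nm_summable)

variable {K : Type} [Field K] [NumberField K]

/-- the minimal equation of `E` at `v` has good reduction -/
def GoodAt (E : WeierstrassCurve K) (v : HeightOneSpectrum (𝓞 K)) : Prop :=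
  ((E.baseChange (v.adicCompletion K)).minimal (v.adicCompletionIntegers K)).HasGoodReduction
    (v.adicCompletionIntegers K)

/-- the number of points over the residue field of the reduction of the minimal equation at `v` -/
noncomputable def pts (E : WeierstrassCurve K) (v : HeightOneSpectrum (𝓞 K)) : ℕ :=
  Nat.card (((E.baseChange (v.adicCompletion K)).minimal
    (v.adicCompletionIntegers K)).reduction (v.adicCompletionIntegers K)).toAffine.Point

theorem aV_good {E : WeierstrassCurve K} {v : HeightOneSpectrum (𝓞 K)} (h : GoodAt E v) :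
    aV E v = (nm v : ℤ) + 1 - pts E v ∧ eV E v = nm v := by
  unfold aV eV aLoc eLoc
  have h' : ((E.baseChange (v.adicCompletion K)).minimal (v.adicCompletionIntegers K)).HasGoodReduction
    (v.adicCompletionIntegers K) := h
  rw [if_pos h', if_pos h', card_res]
  exact ⟨rfl, rfl⟩

theorem aV_bad {E : WeierstrassCurve K} {v : HeightOneSpectrum (𝓞 K)} (h : ¬ GoodAt E v) :
    |aV E v| ≤ 1 ∧ eV E v = 0 := by
  unfold aV eV aLoc eLoc
  have h' : ¬ ((E.baseChange (v.adicCompletion K)).minimal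
    (v.adicCompletionIntegers K)).HasGoodReduction (v.adicCompletionIntegers K) := h
  rw [if_neg h', if_neg h']
  refine ⟨?_, rfl⟩
  split_ifs <;> norm_num

/-- the valuations of the completion and of the field -/
lemma val_coe (v : HeightOneSpectrum (𝓞 K)) (x : K) :
    Valued.v (algebraMap K (v.adicCompletion K) x) = v.valuation K x :=
  HeightOneSpectrum.valuedAdicCompletion_eq_valuation' v x

theorem good_of_int {E : WeierstrassCurve K} {v : HeightOneSpectrum (𝓞 K)}
    (h1 : v.valuation K E.a₁ ≤ 1) (h2 : v.valuation K E.a₂ ≤ 1) (h3 : v.valuation K E.a₃ ≤ 1)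
    (h4 : v.valuation K E.a₄ ≤ 1) (h6 : v.valuation K E.a₆ ≤ 1) (hΔ : v.valuation K E.Δ = 1) :
    GoodAt E v := by
  have hm : ∀ x : K, v.valuation K x ≤ 1 →
      ∃ y : v.adicCompletionIntegers K, (y : v.adicCompletion K) = algebraMap K (v.adicCompletion K) x := by
    intro x hx
    refine ⟨⟨algebraMap K (v.adicCompletion K) x, ?_⟩, rfl⟩
    rw [HeightOneSpectrum.mem_adicCompletionIntegers, val_coe]
    exact hx
  obtain ⟨y1, e1⟩ := hm _ h1
  obtain ⟨y2, e2⟩ := hm _ h2
  obtain ⟨y3, e3⟩ := hm _ h3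
  obtain ⟨y4, e4⟩ := hm _ h4
  obtain ⟨y6, e6⟩ := hm _ h6
  set W₀ : WeierstrassCurve (v.adicCompletionIntegers K) := ⟨y1, y2, y3, y4, y6⟩ with hW₀
  have hW : E.baseChange (v.adicCompletion K) =
      W₀.map (algebraMap (v.adicCompletionIntegers K) (v.adicCompletion K)) :=
    WeierstrassCurve.ext e1.symm e2.symm e3.symm e4.symm e6.symm
  refine Pool.Agent.Y698.min_good (v.adicCompletionIntegers K) ?_ hW
  -- the discriminant is a unit
  have hd : ((W₀.Δ : v.adicCompletionIntegers K) : v.adicCompletion K) =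
      algebraMap K (v.adicCompletion K) E.Δ := by
    have h5 : (W₀.map (algebraMap (v.adicCompletionIntegers K) (v.adicCompletion K))).Δ =
        (E.baseChange (v.adicCompletion K)).Δ := by rw [hW]
    rw [map_Δ] at h5
    have h6 : (E.baseChange (v.adicCompletion K)).Δ = algebraMap K (v.adicCompletion K) E.Δ :=
      map_Δ E _
    rw [h6] at h5
    exact h5
  have hv : Valued.v ((W₀.Δ : v.adicCompletionIntegers K) : v.adicCompletion K) = 1 := by
    rw [hd, val_coe]
    exact hΔ
  have hne : ((W₀.Δ : v.adicCompletionIntegers K) : v.adicCompletion K) ≠ 0 := by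
    intro h0
    rw [h0, map_zero] at hv
    exact zero_ne_one hv
  have hinv : ((W₀.Δ : v.adicCompletionIntegers K) : v.adicCompletion K)⁻¹ ∈
      v.adicCompletionIntegers K := by
    rw [HeightOneSpectrum.mem_adicCompletionIntegers, map_inv₀, hv, inv_one]
  refine IsUnit.of_mul_eq_one (b := ⟨_, hinv⟩) ?_
  apply Subtype.ext
  exact mul_inv_cancel₀ hne

theorem good_finite {E : WeierstrassCurve K} (hΔ : E.Δ ≠ 0) :
    {v : HeightOneSpectrum (𝓞 K) | ¬ GoodAt E v}.Finite := by
  have hf : ∀ x : K, {v : HeightOneSpectrum (𝓞 K) | ¬ v.valuation K x ≤ 1}.Finite := by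
    intro x
    refine (HeightOneSpectrum.Support.finite (𝓞 K) x).subset fun v hv => ?_
    exact not_le.1 hv
  refine ((((((hf E.a₁).union (hf E.a₂)).union (hf E.a₃)).union (hf E.a₄)).union (hf E.a₆)).union
    ((hf E.Δ).union (hf E.Δ⁻¹))).subset fun v hv => ?_
  by_contra hcon
  simp only [Set.mem_union, Set.mem_ofPred_eq, not_or, not_not] at hcon
  obtain ⟨⟨⟨⟨⟨h1, h2⟩, h3⟩, h4⟩, h6⟩, h7, h8⟩ := hcon
  apply hv
  refine good_of_int h1 h2 h3 h4 h6 (le_antisymm h7 ?_)
  rw [map_inv₀] at h8
  have hne : v.valuation K E.Δ ≠ 0 := (Valuation.ne_zero_iff _).2 hΔ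
  rwa [inv_le_one₀ (zero_lt_iff.2 hne)] at h8

theorem six_finite : {v : HeightOneSpectrum (𝓞 K) | (6 : 𝓞 K) ∈ v.asIdeal}.Finite := by
  have h6 : (6 : 𝓞 K) ≠ 0 := by norm_num
  refine (Ideal.finite_factors (I := Ideal.span {(6 : 𝓞 K)}) (by
    rw [Ne, Ideal.zero_eq_bot, Ideal.span_singleton_eq_bot]
    exact h6)).subset fun v hv => ?_
  show v.asIdeal ∣ Ideal.span {(6 : 𝓞 K)}
  rw [Ideal.dvd_iff_le, Ideal.span_singleton_le_iff_mem]
  exact hv

/-- the number of affine points in the two notations -/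
lemma aff_AP {k : Type} [Field k] (V : WeierstrassCurve k) :
    Pool.Agent.H341R2.EC.aff V = Nat.card (Pool.Agent.Y698.AP V) := by
  unfold Pool.Agent.H341R2.EC.aff Pool.Agent.Y698.AP
  refine Nat.card_congr (Equiv.subtypeEquivRight fun p => ?_)
  exact (WeierstrassCurve.Affine.equation_iff ..).symm

/-- **the bound of Hasse** in characteristic prime to six -/
theorem hasse_fin {k : Type} [Field k] [Finite k] (V : WeierstrassCurve k) (hΔ : V.Δ ≠ 0)
    (h6 : (6 : k) ≠ 0) :
    (((Nat.card k : ℤ) + 1 - Nat.card V.toAffine.Point : ℤ) : ℝ) ^ 2 ≤ 4 * Nat.card k := by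
  classical
  let _ : Fintype k := Fintype.ofFinite k
  have h1 : ((Nat.card k : ℤ) + 1 - Nat.card V.toAffine.Point : ℤ) =
      -Pool.Agent.H341R2.EC.csum V.c₄ V.c₆ := by
    rw [Pool.Agent.Y698.card_point V hΔ, ← aff_AP, Pool.Agent.H341R2.EC.aff_eq_short h6 V]
    push_cast
    rw [Pool.Agent.H341R2.EC.short_eq h6, Nat.card_eq_fintype_card]
    unfold Pool.Agent.H341R2.EC.csum
    ring
  have h2 : V.c₄ ^ 3 - V.c₆ ^ 2 ≠ 0 := by
    rw [← V.c_relation]
    refine mul_ne_zero ?_ hΔ
    have e : (1728 : k) = 6 ^ 3 * 2 ^ 3 := by norm_num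
    have e2 : (2 : k) ≠ 0 := by
      intro h
      apply h6
      have : (6 : k) = 3 * 2 := by norm_num
      rw [this, h, mul_zero]
    rw [e]
    exact mul_ne_zero (pow_ne_zero 3 h6) (pow_ne_zero 3 e2)
  have h3 := Pool.Agent.H341R2.EC.csum_bound h6 h2
  rw [h1, Nat.card_eq_fintype_card]
  push_cast
  rw [neg_sq, ← sq_abs]
  have h4 : |(Pool.Agent.H341R2.EC.csum V.c₄ V.c₆ : ℝ)| ^ 2 ≤ (2 * Real.sqrt (Fintype.card k)) ^ 2 :=
    pow_le_pow_left₀ (abs_nonneg _) h3 2
  rw [mul_pow, Real.sq_sqrt (Nat.cast_nonneg _)] at h4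
  have h5 : (2 : ℝ) ^ 2 = 4 := by norm_num
  rw [h5] at h4
  exact h4

theorem hasse {E : WeierstrassCurve K} {v : HeightOneSpectrum (𝓞 K)} (h : GoodAt E v)
    (h6 : (6 : 𝓞 K) ∉ v.asIdeal) : ((aV E v : ℤ) : ℝ) ^ 2 ≤ 4 * nm v := by
  have hfin := finite_res v
  have hg : ((E.baseChange (v.adicCompletion K)).minimal
    (v.adicCompletionIntegers K)).HasGoodReduction (v.adicCompletionIntegers K) := h
  set R := v.adicCompletionIntegers K with hR
  set W := (E.baseChange (v.adicCompletion K)).minimal R with hW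
  have hΔ : (W.reduction R).Δ ≠ 0 := by
    have h2 : IsUnit (W.integralModel R).Δ := by
      have h3 := hg.goodReduction
      rw [← integralModel_Δ_eq R W, IsDedekindDomain.HeightOneSpectrum.valuation_eq_one_iff_notMem] at h3
      by_contra h4
      exact h3 ((IsLocalRing.mem_maximalIdeal _).2 h4)
    unfold WeierstrassCurve.reduction
    rw [map_Δ]
    exact (h2.map _).ne_zero
  have h6k : (6 : IsLocalRing.ResidueField R) ≠ 0 := by
    intro h0
    have h1 : IsLocalRing.residue R (algebraMap (𝓞 K) R 6) = 0 := by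
      rw [map_ofNat, map_ofNat]
      exact h0
    rw [IsLocalRing.residue_eq_zero_iff, IsLocalRing.mem_maximalIdeal] at h1
    apply h6
    by_contra hcon
    apply h1
    -- a unit
    have hv : Valued.v (algebraMap K (v.adicCompletion K) (algebraMap (𝓞 K) K 6)) = 1 := by
      rw [val_coe, HeightOneSpectrum.valuation_of_algebraMap]
      exact (v.intValuation_eq_one_iff).2 hcon
    have hne : (algebraMap K (v.adicCompletion K) (algebraMap (𝓞 K) K 6)) ≠ 0 := by
      intro h0
      rw [h0, map_zero] at hv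
      exact zero_ne_one hv
    have hinv : (algebraMap K (v.adicCompletion K) (algebraMap (𝓞 K) K 6))⁻¹ ∈
        v.adicCompletionIntegers K := by
      rw [HeightOneSpectrum.mem_adicCompletionIntegers, map_inv₀, hv, inv_one]
    refine IsUnit.of_mul_eq_one (b := ⟨_, hinv⟩) ?_
    apply Subtype.ext
    exact mul_inv_cancel₀ hne
  have h7 := hasse_fin (W.reduction R) hΔ h6k
  rw [card_res] at h7
  rw [(aV_good h).1]
  exact h7

end Pool.Agent.T9h30.RS
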